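import Pool.Agent.Lib.MP_1a91b9_ntS.DG.GDef

/-!
# MP_1a91b9_nt (twists over `Q(sqrt -3)`, classes modulo powers of two), part D: one-sided exponents

The reciprocity law is `s p q + s q p = tr (a p * a q)`, with `a q` in the field with four elements.
-/

set_option autoImplicit false
set_option linter.unusedSectionVars false

namespace Pool.Agent.Lib.MP_1a91b9_ntS.DG

open Finset Pool.Agent.Lib.MP_1a91b9_ntH Pool.Agent.Lib.MP_1a91b9_ntH.Da
open Pool.Agent.Lib.MP_1a91b9_ntV (ord ord_inj Phi1)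
open Pool.Agent.Lib.MP_1a91b9_ntQ (e2 e2_add e2_zero norm_e2)

noncomputable section

section Gen

variable {L : Type} [Fintype L] [DecidableEq L]

theorem zz (x : ZMod 2) : x = 0 ∨ x = 1 := by revert x; decide

theorem zz_self (x : ZMod 2) : x + x = 0 := by revert x; decide

/-- The exponent of the sign of reciprocity. -/
def FR4 (Ph : L → L → ZMod 2) (n : L → F4) : ZMod 2 :=
  ∑ a, ∑ b, (if ord a < ord b then Ph b a else 0) * F4.tr (n a * n b)

variable {ι : Type} [DecidableEq ι]

/-- The sum of the classes of the primes with the label `a`. -/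
def nl4 (al : ι → F4) (S : Finset ι) (f : S → L) (a : L) : F4 :=
  ∑ j : S, if f j = a then al j else 0

omit [DecidableEq ι] in
theorem sum_nl4 (al : ι → F4) (S : Finset ι) (f : S → L) (c : L → F4) :
    ∑ a, c a * nl4 al S f a = ∑ j : S, c (f j) * al j := by
  unfold nl4
  simp only [mul_sum]
  rw [sum_comm]
  refine sum_congr rfl fun j _ => ?_
  simp

omit [DecidableEq ι] in
theorem FR4_nl (Ph : L → L → ZMod 2) (al : ι → F4) (S : Finset ι) (f : S → L) :
    FR4 Ph (nl4 al S f) = ∑ j : S, ∑ l : S,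
      (if ord (f j) < ord (f l) then Ph (f l) (f j) else 0) * F4.tr (al j * al l) := by
  unfold FR4
  have hd : ∀ (t : ZMod 2) (x : F4), t * F4.tr x = F4.tr (F4.of t * x) := by decide
  have h1 : ∀ a : L, ∑ b, (if ord a < ord b then Ph b a else 0) *
      F4.tr (nl4 al S f a * nl4 al S f b) =
      F4.tr (nl4 al S f a * ∑ l : S, F4.of (if ord a < ord (f l) then Ph (f l) a else 0) *
        al l) := by
    intro a
    rw [← sum_nl4 al S f fun b => F4.of (if ord a < ord b then Ph b a else 0), mul_sum, F4.tr_sum]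
    refine sum_congr rfl fun b _ => ?_
    rw [hd]
    congr 1
    ring
  rw [sum_congr rfl fun a _ => h1 a, ← F4.tr_sum]
  have h2 : ∑ a, nl4 al S f a * ∑ l : S, F4.of (if ord a < ord (f l) then Ph (f l) a else 0) *
      al l = ∑ a, (∑ l : S, F4.of (if ord a < ord (f l) then Ph (f l) a else 0) * al l) *
        nl4 al S f a := sum_congr rfl fun a _ => mul_comm _ _
  rw [h2, sum_nl4 al S f fun a => ∑ l : S, F4.of (if ord a < ord (f l) then Ph (f l) a else 0) *
    al l, F4.tr_sum]
  refine sum_congr rfl fun j _ => ?_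
  rw [sum_mul, F4.tr_sum]
  refine sum_congr rfl fun l _ => ?_
  rw [hd]
  congr 1
  ring

theorem exp_one4 (D : Dat ι) (hrec : D.Rec) (Ph : L → L → ZMod 2) (hdiag : ∀ l, Ph l l = 0)
    (S : Finset ι) (f : S → L) :
    ∑ j : S, ∑ l : S, Ph (f j) (f l) * D.s j l =
      ∑ j : S, ∑ l : S, Phi1 Ph (f j) (f l) * D.s j l + FR4 Ph (nl4 D.a S f) := by
  have h1 : ∑ j : S, ∑ l : S, Ph (f j) (f l) * D.s j l =
      ∑ j : S, ∑ l : S, (if ord (f j) < ord (f l) then Ph (f j) (f l) * D.s j l else 0) +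
      ∑ j : S, ∑ l : S, (if ord (f l) < ord (f j) then Ph (f j) (f l) * D.s j l else 0) := by
    rw [← sum_add_distrib]
    refine sum_congr rfl fun j _ => ?_
    rw [← sum_add_distrib]
    refine sum_congr rfl fun l _ => ?_
    rcases lt_trichotomy (ord (f j)) (ord (f l)) with h | h | h
    · rw [if_pos h, if_neg (not_lt.2 h.le), add_zero]
    · rw [ord_inj h, hdiag, zero_mul, if_neg (lt_irrefl _), add_zero]
    · rw [if_neg (not_lt.2 h.le), if_pos h, zero_add]
  have h2 : ∑ j : S, ∑ l : S, (if ord (f l) < ord (f j) then Ph (f j) (f l) * D.s j l else 0) =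
      ∑ j : S, ∑ l : S, (if ord (f j) < ord (f l) then Ph (f l) (f j) * D.s l j else 0) :=
    sum_comm
  rw [h1, h2, FR4_nl, ← sum_add_distrib, ← sum_add_distrib]
  refine sum_congr rfl fun j _ => ?_
  rw [← sum_add_distrib, ← sum_add_distrib]
  refine sum_congr rfl fun l _ => ?_
  by_cases h : ord (f j) < ord (f l)
  · have hne : (j : ι) ≠ l := by
      intro e
      have e' : j = l := Subtype.ext e
      rw [e'] at h
      exact lt_irrefl _ h
    have h3 := hrec j l hne
    have h4 : D.s l j = D.s j l + F4.tr (D.a j * D.a l) := by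
      rw [← h3, ← add_assoc, zz_self, zero_add]
    rw [if_pos h, if_pos h, if_pos h, Phi1, if_pos h, h4]
    ring
  · rw [if_neg h, if_neg h, if_neg h, Phi1, if_neg h]
    ring

/-- The Fourier coefficients of the sign of reciprocity. -/
def Fh4 (Ph : L → L → ZMod 2) (c : L → F4) : ℂ :=
  (∑ n : L → F4, e2 (FR4 Ph n + ∑ a, F4.tr (c a * n a))) / 4 ^ Fintype.card L

theorem sum_dot4 (z : L → F4) : ∑ v : L → F4, e2 (F4.tr (v ⬝ᵥ z)) =
    if z = 0 then (4 : ℂ) ^ Fintype.card L else 0 := by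
  have h1 := sum_dotG z
  have h2 : ∑ v : L → F4, e2 (F4.tr (v ⬝ᵥ z)) =
      ((∑ v : L → F4, sg (F4.tr (v ⬝ᵥ z)) : ℝ) : ℂ) := by
    rw [Complex.ofReal_sum]
    rfl
  rw [h2, h1]
  split_ifs
  · push_cast
    rfl
  · exact Complex.ofReal_zero

theorem four4 (Ph : L → L → ZMod 2) (n : L → F4) :
    e2 (FR4 Ph n) = ∑ c : L → F4, Fh4 Ph c * e2 (∑ a, F4.tr (c a * n a)) := by
  have h2 : (4 : ℂ) ^ Fintype.card L ≠ 0 := pow_ne_zero _ (by norm_num)
  have h1 : ∀ c : L → F4, Fh4 Ph c * e2 (∑ a, F4.tr (c a * n a)) =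
      (∑ n' : L → F4, e2 (FR4 Ph n') * e2 (F4.tr (c ⬝ᵥ (n' + n)))) / 4 ^ Fintype.card L := by
    intro c
    unfold Fh4
    rw [div_mul_eq_mul_div, sum_mul]
    congr 1
    refine sum_congr rfl fun n' _ => ?_
    rw [e2_add, mul_assoc, ← e2_add]
    congr 2
    rw [dotProduct_add, F4.tr_add, dotProduct, dotProduct, F4.tr_sum, F4.tr_sum]
  rw [sum_congr rfl fun c _ => h1 c, ← sum_div, sum_comm]
  have h3 : ∀ n' : L → F4, ∑ c : L → F4, e2 (FR4 Ph n') * e2 (F4.tr (c ⬝ᵥ (n' + n))) =
      if n' = n then e2 (FR4 Ph n) * 4 ^ Fintype.card L else 0 := by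
    intro n'
    rw [← mul_sum, sum_dot4]
    have h4 : n' + n = 0 ↔ n' = n := by
      constructor
      · intro h
        funext a
        have := congrFun h a
        have h5 : ∀ x y : F4, x + y = 0 → x = y := by decide
        exact h5 _ _ this
      · rintro rfl
        funext a
        exact F4.add_self _
    by_cases h : n' = n
    · rw [if_pos (h4.2 h), if_pos h, h]
    · rw [if_neg fun h5 => h (h4.1 h5), if_neg h, mul_zero]
  rw [sum_congr rfl fun n' _ => h3 n', sum_ite_eq', if_pos (mem_univ _), mul_div_cancel_right₀ _ h2]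

theorem norm_Fh4_le (Ph : L → L → ZMod 2) (c : L → F4) : ‖Fh4 Ph c‖ ≤ 1 := by
  unfold Fh4
  rw [norm_div, norm_pow, Complex.norm_ofNat, div_le_one (by positivity)]
  refine (norm_sum_le _ _).trans ?_
  simp only [norm_e2, sum_const, card_univ, Fintype.card_fun, F4.card_F4, nsmul_eq_mul, mul_one]
  push_cast
  exact le_refl _

end Gen

end

end Pool.Agent.Lib.MP_1a91b9_ntS.DG
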