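import Pool.Agent.Lib.MP_1a91b9_ntE.D.MomE
import Pool.Agent.Lib.MP_1a91b9_ntV.D.SysN

/-!
# MP_1a91b9_nt (twists over `Q(sqrt -3)`, classes modulo powers of two), part D: definitions

`ClG D G`: every prime has a class in the finite group `G`, which determines `D.a q`.
-/

set_option autoImplicit false
set_option linter.unusedSectionVars false

namespace Pool.Agent.Lib.MP_1a91b9_ntS.DG

open Finset Pool.Agent.Lib.MP_1a91b9_ntH Pool.Agent.Lib.MP_1a91b9_ntH.Da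
  Pool.Agent.Lib.MP_1a91b9_ntE Pool.Agent.Lib.MP_1a91b9_ntE.Dc
open Pool.Agent.Lib.MP_1a91b9_ntQ (e2 Mz)
open Pool.Agent.Lib.MP_1a91b9_ntH2.Db (twD)

noncomputable section

variable {ι : Type} [DecidableEq ι]

/-- The classes in `G`. -/
structure ClG (D : Dat ι) (G : Type) [AddCommGroup G] where
  cl : ι → G
  aG : G →+ F4
  ha : ∀ q, aG (cl q) = D.a q

variable {G : Type} [AddCommGroup G] {D : Dat ι}

/-- The mean values of the characters of `G` which are not trivial on the primes are zero. -/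
def ClG.H3 [PS ι] (C : ClG D G) : Prop :=
  ∀ ψ : AddChar G ℂ, (∃ q, ψ (C.cl q) ≠ 1) → ∀ ε : ℝ, 0 < ε → ∃ X₀ : ℕ, ∀ X : ℕ, X₀ ≤ X →
    ‖∑ S ∈ Sx ι X, ∏ q ∈ S, ψ (C.cl q)‖ ≤ ε * X

open Classical in
/-- The squarefree integers of the class `g`. -/
def SG [PS ι] (C : ClG D G) (g : G) (X : ℕ) : Finset (Finset ι) :=
  (Sx ι X).filter fun S => ∑ q ∈ S, C.cl q = g

/-- The weighted sum of the `k`-th moment with the linear terms `gam`, `del`. -/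
def WS [PS ι] (D : DatE ι) (k : ℕ) (gam : Lab k → F4) (del : Lab k → ZMod 2) (h : ι → ℂ)
    (X : ℕ) : ℂ :=
  ∑ S ∈ Sx ι X, (((4 : ℂ) ^ k)⁻¹) ^ S.card * (∏ q ∈ S, h q) * ∑ f : S → Lab k,
    e2 (∑ j : S, F4.tr (gam (f j) * D.a j) + ∑ i : S, ∑ j : S, Phi (f i) (f j) * D.s i j +
      ∑ j : S, del (f j) * D.g j)

/-- **The vanishing theorem**: `h` is not a character of the classes modulo four. -/
def Van [PS ι] (D : DatE ι) : Prop :=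
  ∀ (k : ℕ), 1 ≤ k → ∀ (gam : Lab k → F4) (del : Lab k → ZMod 2),
    (∀ U ∈ Us k, ∃ l ∈ U, del l = 0) → ∀ h : ι → ℂ, (∀ q, ‖h q‖ = 1) →
    (∀ c : F4, Mz ∅ fun q => h q * e2 (F4.tr (c * D.a q))) → ∀ ε : ℝ, 0 < ε →
    ∃ X₀ : ℕ, ∀ X : ℕ, X₀ ≤ X → ‖WS D k gam del h X‖ ≤ ε * X

/-- **The density in the odd classes** (both bounds). -/
def DensG [PS ι] (D : Dat ι) (G : Type) [AddCommGroup G] : Prop :=
  ∀ C : ClG D G, C.H3 → ∀ (c : F4) (g : G) (κ : ℝ),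
    (κ < cinf → ∀ ε : ℝ, 0 < ε → ∃ X₀ : ℕ, ∀ X : ℕ, X₀ ≤ X →
      κ * ((SG C g X).card : ℝ) - ε * X ≤
        (((SG C g X).filter fun S => ((twD c D).M S).det ≠ 0).card : ℝ)) ∧
    (cinf < κ → ∀ ε : ℝ, 0 < ε → ∃ X₀ : ℕ, ∀ X : ℕ, X₀ ≤ X →
      (((SG C g X).filter fun S => ((twD c D).M S).det ≠ 0).card : ℝ) ≤
        κ * ((SG C g X).card : ℝ) + ε * X)

/-- **The density in the even classes** (both bounds). -/
def DensGE [PS ι] (D : DatE ι) (G : Type) [AddCommGroup G] : Prop :=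
  ∀ C : ClG D.toDat G, C.H3 → ∀ (c : F4) (g : G) (κ : ℝ),
    (κ < cinf → ∀ ε : ℝ, 0 < ε → ∃ X₀ : ℕ, ∀ X : ℕ, X₀ ≤ X →
      κ * ((SG C g X).card : ℝ) - ε * X ≤
        (((SG C g X).filter fun S => (D.NE c S).det ≠ 0).card : ℝ)) ∧
    (cinf < κ → ∀ ε : ℝ, 0 < ε → ∃ X₀ : ℕ, ∀ X : ℕ, X₀ ≤ X →
      (((SG C g X).filter fun S => (D.NE c S).det ≠ 0).card : ℝ) ≤
        κ * ((SG C g X).card : ℝ) + ε * X)

end

end Pool.Agent.Lib.MP_1a91b9_ntS.DG
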