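import Pool.Agent.Lib.MP_1a91b9_ntS.DG.Sys4

/-!
# MP_1a91b9_nt (twists over `Q(sqrt -3)`, classes modulo powers of two), part D: the vanishing theorem
-/

set_option autoImplicit false
set_option linter.unusedSectionVars false

namespace Pool.Agent.Lib.MP_1a91b9_ntS.DG

open Finset Pool.Agent.Lib.MP_1a91b9_ntH Pool.Agent.Lib.MP_1a91b9_ntH.Da
  Pool.Agent.Lib.MP_1a91b9_ntE
open Pool.Agent.Lib.MP_1a91b9_ntV (ord Phi1 Phi1_lk Phi1_self Phi1_os LG An engineG)
open Pool.Agent.Lib.MP_1a91b9_ntQ (e2 e2_add e2_sum e2_zero e2_one norm_e2 Mz Dat2)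

noncomputable section

variable {ι : Type} [DecidableEq ι] [PS ι] {k : ℕ}

theorem WS_eq {D : DatE ι} (hrec : D.Rec) (gam : Lab k → F4) (del : Lab k → ZMod 2) (h : ι → ℂ)
    (X : ℕ) : WS D k gam del h X = ∑ ce : Lab k → F4, Fh4 Phi ce *
      ∑ S ∈ Sx ι X, ∑ f : S → Lab k, (∏ j : S, (L4 D h (gam + ce) del).g (f j) j) *
        e2 (∑ j : S, ∑ l : S, (L4 D h (gam + ce) del).Phi (f j) (f l) * (D2 D).s j l) := by
  have h1 : ∀ S ∈ Sx ι X, (((4 : ℂ) ^ k)⁻¹) ^ S.card * (∏ q ∈ S, h q) * ∑ f : S → Lab k,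
      e2 (∑ j : S, F4.tr (gam (f j) * D.a j) + ∑ i : S, ∑ j : S, Phi (f i) (f j) * D.s i j +
        ∑ j : S, del (f j) * D.g j) =
      ∑ ce : Lab k → F4, Fh4 Phi ce * ∑ f : S → Lab k,
        (∏ j : S, (L4 D h (gam + ce) del).g (f j) j) *
        e2 (∑ j : S, ∑ l : S, (L4 D h (gam + ce) del).Phi (f j) (f l) * (D2 D).s j l) := by
    intro S _
    have h6 : ∀ f : S → Lab k,
        e2 (∑ j : S, F4.tr (gam (f j) * D.a j) + ∑ i : S, ∑ j : S, Phi (f i) (f j) * D.s i j +
          ∑ j : S, del (f j) * D.g j) =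
        ∑ ce : Lab k → F4, Fh4 Phi ce *
          (e2 (∑ j : S, xe D (gam + ce) del (f j) j) *
            e2 (∑ j : S, ∑ l : S, Phi1 Phi (f j) (f l) * D.s j l)) := by
      intro f
      have h7 : ∀ ce : Lab k → F4, ∑ a, F4.tr (ce a * nl4 D.a S f a) =
          ∑ j : S, F4.tr (ce (f j) * D.a j) := by
        intro ce
        rw [← F4.tr_sum, sum_nl4, F4.tr_sum]
      have h8 : ∀ ce : Lab k → F4, ∑ j : S, xe D (gam + ce) del (f j) j =
          ∑ j : S, F4.tr (gam (f j) * D.a j) + ∑ j : S, F4.tr (ce (f j) * D.a j) +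
            ∑ j : S, del (f j) * D.g j := by
        intro ce
        rw [← sum_add_distrib, ← sum_add_distrib]
        refine sum_congr rfl fun j _ => ?_
        unfold xe
        rw [Pi.add_apply, add_mul, F4.tr_add]
      rw [exp_one4 D.toDat hrec Phi Phi_self S f]
      have h9 : ∑ j : S, F4.tr (gam (f j) * D.a j) +
          (∑ j : S, ∑ l : S, Phi1 Phi (f j) (f l) * D.s j l + FR4 Phi (nl4 D.a S f)) +
          ∑ j : S, del (f j) * D.g j =
          (∑ j : S, F4.tr (gam (f j) * D.a j) + ∑ j : S, del (f j) * D.g j) +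
          (∑ j : S, ∑ l : S, Phi1 Phi (f j) (f l) * D.s j l) + FR4 Phi (nl4 D.a S f) := by ring
      rw [h9, e2_add, four4, mul_sum]
      refine sum_congr rfl fun ce _ => ?_
      rw [h7, h8, e2_add, e2_add, e2_add, e2_add]
      ring
    simp only [h6]
    rw [sum_comm, mul_sum]
    refine sum_congr rfl fun ce _ => ?_
    rw [← mul_sum]
    have h7 : ∀ f : S → Lab k, ∏ j : S, (L4 D h (gam + ce) del).g (f j) j =
        (((4 : ℂ) ^ k)⁻¹) ^ S.card * ((∏ q ∈ S, h q) *
          e2 (∑ j : S, xe D (gam + ce) del (f j) j)) := by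
      intro f
      have h8 : ∀ j : S, (L4 D h (gam + ce) del).g (f j) j = ((4 : ℂ) ^ k)⁻¹ * (h j *
          e2 (xe D (gam + ce) del (f j) j)) := by
        intro j
        show h j * (((4 : ℂ) ^ k)⁻¹ * e2 (xe D (gam + ce) del (f j) j)) = _
        ring
      rw [prod_congr rfl fun j _ => h8 j, prod_mul_distrib, prod_const, card_univ,
        Fintype.card_coe, prod_mul_distrib, ← e2_sum, prod_coe_sort S h]
    have h9 : ∀ f : S → Lab k, (∏ j : S, (L4 D h (gam + ce) del).g (f j) j) *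
        e2 (∑ j : S, ∑ l : S, (L4 D h (gam + ce) del).Phi (f j) (f l) * (D2 D).s j l) =
        (((4 : ℂ) ^ k)⁻¹) ^ S.card * (∏ q ∈ S, h q) *
          (e2 (∑ j : S, xe D (gam + ce) del (f j) j) *
          e2 (∑ j : S, ∑ l : S, Phi1 Phi (f j) (f l) * D.s j l)) := by
      intro f
      rw [h7 f]
      show (((4 : ℂ) ^ k)⁻¹) ^ S.card * ((∏ q ∈ S, h q) *
          e2 (∑ j : S, xe D (gam + ce) del (f j) j)) *
          e2 (∑ j : S, ∑ l : S, Phi1 Phi (f j) (f l) * D.s j l) = _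
      ring
    rw [sum_congr rfl fun f _ => h9 f, ← mul_sum]
    ring
  rw [WS, sum_congr rfl h1, sum_comm]
  exact sum_congr rfl fun ce _ => (mul_sum _ _ _).symm

/-- **The vanishing theorem.** -/
theorem van {D : DatE ι} (hD : D.OK) : Van D := by
  intro k hk gam del hdel h hn hz ε hε
  have hN : (0 : ℝ) < Fintype.card (Lab k → F4) := by
    exact_mod_cast Fintype.card_pos
  choose X0 h0 using fun ce : Lab k → F4 =>
    engineG (D2 D) (an_D2 hD) (L4 D h (gam + ce) del) (L4_OK hD hk hn hz (gam + ce) del hdel)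
      (ε / Fintype.card (Lab k → F4)) (by positivity)
  refine ⟨∑ ce, X0 ce, fun X hX => ?_⟩
  have hXt : ∀ ce, X0 ce ≤ X := fun ce =>
    (single_le_sum (fun _ _ => Nat.zero_le _) (mem_univ ce)).trans hX
  rw [WS_eq hD.rec_]
  refine (norm_sum_le _ _).trans ?_
  calc _ ≤ ∑ ce : Lab k → F4, ε / Fintype.card (Lab k → F4) * X := by
        refine sum_le_sum fun ce _ => ?_
        have h2 := h0 ce X (hXt ce)
        rw [mul_zero, sub_zero] at h2
        rw [norm_mul]
        calc _ ≤ 1 * _ := mul_le_mul_of_nonneg_right (norm_Fh4_le Phi ce) (norm_nonneg _)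
          _ ≤ _ := by
            rw [one_mul]
            exact h2
    _ = ε * X := by
        rw [sum_const, card_univ, nsmul_eq_mul]
        field_simp

end

end Pool.Agent.Lib.MP_1a91b9_ntS.DG
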