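import Pool.Agent.Lib.MP_1a91b9_ntS.DG.Cls4
import Pool.Agent.Lib.MP_1a91b9_ntS.DG.Van

/-!
# MP_1a91b9_nt (twists over `Q(sqrt -3)`, classes modulo powers of two), part D: the density
-/

set_option autoImplicit false
set_option linter.unusedSectionVars false

namespace Pool.Agent.Lib.MP_1a91b9_ntS.DG

open Finset Pool.Agent.Lib.MP_1a91b9_ntH Pool.Agent.Lib.MP_1a91b9_ntH.Da
  Pool.Agent.Lib.MP_1a91b9_ntE Pool.Agent.Lib.MP_1a91b9_ntE.Dc Pool.Agent.Lib.MP_1a91b9_ntH2.Db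
open Pool.Agent.Lib.MP_1a91b9_ntQ (e2 e2_add e2_sum e2_zero e2_one norm_e2 Mz)

noncomputable section

variable {ι : Type} [DecidableEq ι] [PS ι] {G : Type} [AddCommGroup G] {D : Dat ι}

/-- The character of `G` of an element of the field. -/
def chF (C : ClG D G) (c : F4) : AddChar G ℂ where
  toFun x := e2 (F4.tr (c * C.aG x))
  map_zero_eq_one' := by rw [map_zero, mul_zero, F4.tr_zero, e2_zero]
  map_add_eq_mul' x y := by rw [map_add, mul_add, F4.tr_add, e2_add]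

theorem chF_cl (C : ClG D G) (c : F4) (q : ι) : chF C c (C.cl q) = e2 (F4.tr (c * D.a q)) := by
  rw [← C.ha q]
  rfl

theorem e2_sq (x : ZMod 2) : e2 x * e2 x = 1 := by
  rw [← e2_add, zz_self, e2_zero]

/-- A character of `G` is a character of the classes modulo four on the primes, or it is orthogonal to
all of them. -/
theorem ch_dich (C : ClG D G) (h3 : C.H3) (ψ : AddChar G ℂ) :
    (∃ c : F4, ∀ q, ψ (C.cl q) = e2 (F4.tr (c * D.a q))) ∨
      ∀ c : F4, Mz ∅ fun q => ψ (C.cl q) * e2 (F4.tr (c * D.a q)) := by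
  by_cases h : ∃ c : F4, ∀ q, ψ (C.cl q) = e2 (F4.tr (c * D.a q))
  · exact Or.inl h
  · refine Or.inr fun c ε hε => ?_
    have h1 : ∃ q, (ψ * chF C c) (C.cl q) ≠ 1 := by
      by_contra hcon
      push Not at hcon
      refine h ⟨c, fun q => ?_⟩
      have h2 := hcon q
      rw [AddChar.mul_apply, chF_cl] at h2
      calc ψ (C.cl q) = ψ (C.cl q) * (e2 (F4.tr (c * D.a q)) * e2 (F4.tr (c * D.a q))) := by
            rw [e2_sq, mul_one]
        _ = (ψ (C.cl q) * e2 (F4.tr (c * D.a q))) * e2 (F4.tr (c * D.a q)) := by ring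
        _ = _ := by rw [h2, one_mul]
    obtain ⟨X₀, hX⟩ := h3 _ h1 ε hε
    refine ⟨X₀, fun X hXX => ?_⟩
    rw [filter_true_of_mem fun S _ => disjoint_empty_right S]
    refine le_trans (le_of_eq ?_) (hX X hXX)
    congr 1
    refine sum_congr rfl fun S _ => prod_congr rfl fun q _ => ?_
    rw [AddChar.mul_apply, chF_cl]

theorem prod_e2 (c : F4) (S : Finset ι) :
    ∏ q ∈ S, e2 (F4.tr (c * D.a q)) = ((sg (F4.tr (c * D.A S)) : ℝ) : ℂ) := by
  rw [← e2_sum, ← F4.tr_sum, ← mul_sum]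
  rfl

/-- The moments in the classes, from the real moments and the vanishing. -/
theorem MG_gen [Fintype G] (C : ClG D G) (h3 : C.H3) (hD : D.H3) (K : Finset ι → ℕ) (k : ℕ)
    (hre : ∀ (c1 : F4) (ε : ℝ), 0 < ε → ∃ X₀ : ℕ, ∀ X : ℕ, X₀ ≤ X →
      |∑ S ∈ Sx ι X, (K S : ℝ) ^ k * sg (F4.tr (c1 * D.A S)) -
        (if c1 = 0 then (Nk k : ℝ) else 0) * (Sx ι X).card| ≤ ε * X)
    (hva : 1 ≤ k → ∀ h : ι → ℂ, (∀ q, ‖h q‖ = 1) →
      (∀ c : F4, Mz ∅ fun q => h q * e2 (F4.tr (c * D.a q))) → ∀ ε : ℝ, 0 < ε →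
      ∃ X₀ : ℕ, ∀ X : ℕ, X₀ ≤ X →
        ‖∑ S ∈ Sx ι X, (∏ q ∈ S, h q) * (K S : ℂ) ^ k‖ ≤ ε * X) (g : G) :
    MG C g K (fun x => x ^ k) (Nk k) := by
  refine MG_of_ch C K k (Nk k) (fun ψ ε hε => ?_) g
  have hN0 : (0 : ℝ) ≤ Nk k := Nat.cast_nonneg _
  have hpos : 0 < ε / (1 + (Nk k : ℝ)) := by positivity
  rcases ch_dich C h3 ψ with ⟨c1, h1⟩ | h1
  · obtain ⟨X1, hX1⟩ := hre c1 (ε / (1 + Nk k)) hpos
    obtain ⟨X2, hX2⟩ := Mo_zero hD c1 (ε / (1 + Nk k)) hpos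
    refine ⟨max X1 X2, fun X hX => ?_⟩
    have e1 := hX1 X (le_trans (le_max_left _ _) hX)
    have e2' := hX2 X (le_trans (le_max_right _ _) hX)
    simp only [Mo, pow_zero, one_mul] at e2'
    have h4 : ∀ S : Finset ι, ∏ q ∈ S, ψ (C.cl q) = ((sg (F4.tr (c1 * D.A S)) : ℝ) : ℂ) := by
      intro S
      rw [prod_congr rfl fun q _ => h1 q, prod_e2]
    have h5 : ∑ S ∈ Sx ι X, (∏ q ∈ S, ψ (C.cl q)) * (K S : ℂ) ^ k -
        ((Nk k : ℝ) : ℂ) * ∑ S ∈ Sx ι X, ∏ q ∈ S, ψ (C.cl q) =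
        ((∑ S ∈ Sx ι X, (K S : ℝ) ^ k * sg (F4.tr (c1 * D.A S)) -
          Nk k * ∑ S ∈ Sx ι X, sg (F4.tr (c1 * D.A S)) : ℝ) : ℂ) := by
      simp only [h4]
      push_cast
      congr 1
      refine sum_congr rfl fun S _ => ?_
      ring
    rw [h5, Complex.norm_real, Real.norm_eq_abs]
    have h6 : ∑ S ∈ Sx ι X, (K S : ℝ) ^ k * sg (F4.tr (c1 * D.A S)) -
        Nk k * ∑ S ∈ Sx ι X, sg (F4.tr (c1 * D.A S)) =
        (∑ S ∈ Sx ι X, (K S : ℝ) ^ k * sg (F4.tr (c1 * D.A S)) -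
          (if c1 = 0 then (Nk k : ℝ) else 0) * (Sx ι X).card) -
        Nk k * (∑ S ∈ Sx ι X, sg (F4.tr (c1 * D.A S)) -
          (if c1 = 0 then (Nk 0 : ℝ) else 0) * (Sx ι X).card) := by
      split_ifs
      · simp only [Nk, prod_range_zero, Nat.cast_one]
        ring
      · ring
    rw [h6]
    calc _ ≤ |∑ S ∈ Sx ι X, (K S : ℝ) ^ k * sg (F4.tr (c1 * D.A S)) -
            (if c1 = 0 then (Nk k : ℝ) else 0) * (Sx ι X).card| +
          |(Nk k : ℝ) * (∑ S ∈ Sx ι X, sg (F4.tr (c1 * D.A S)) -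
            (if c1 = 0 then (Nk 0 : ℝ) else 0) * (Sx ι X).card)| := abs_sub _ _
      _ ≤ ε / (1 + Nk k) * X + Nk k * (ε / (1 + Nk k) * X) := by
          rw [abs_mul, abs_of_nonneg hN0]
          exact add_le_add e1 (mul_le_mul_of_nonneg_left e2' hN0)
      _ = ε * X := by field_simp
  · rcases Nat.eq_zero_or_pos k with rfl | hk
    · refine ⟨0, fun X _ => ?_⟩
      simp only [pow_zero, mul_one, Nk, prod_range_zero, Nat.cast_one, Complex.ofReal_one,
        one_mul, sub_self, norm_zero]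
      positivity
    · obtain ⟨X1, hX1⟩ := hva hk (fun q => ψ (C.cl q)) (fun q => AddChar.norm_apply ψ _) h1
        (ε / (1 + Nk k)) hpos
      obtain ⟨X2, hX2⟩ := h1 0 (ε / (1 + Nk k)) hpos
      refine ⟨max X1 X2, fun X hX => ?_⟩
      have e1 := hX1 X (le_trans (le_max_left _ _) hX)
      have e2' := hX2 X (le_trans (le_max_right _ _) hX)
      rw [filter_true_of_mem fun S _ => disjoint_empty_right S] at e2'
      simp only [zero_mul, F4.tr_zero, e2_zero, mul_one] at e2'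
      calc _ ≤ ‖∑ S ∈ Sx ι X, (∏ q ∈ S, ψ (C.cl q)) * (K S : ℂ) ^ k‖ +
            ‖((Nk k : ℝ) : ℂ) * ∑ S ∈ Sx ι X, ∏ q ∈ S, ψ (C.cl q)‖ := norm_sub_le _ _
        _ ≤ ε / (1 + Nk k) * X + Nk k * (ε / (1 + Nk k) * X) := by
            rw [norm_mul, Complex.norm_real, Real.norm_eq_abs, abs_of_nonneg hN0]
            exact add_le_add e1 (mul_le_mul_of_nonneg_left e2' hN0)
        _ = ε * X := by field_simp

/-! ### Odd classes -/

theorem twd_pow (D : DatE ι) (c : F4) {k : ℕ} (S : Finset ι) :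
    ((twD c D.toDat).kc S : ℂ) ^ k = (((4 : ℂ) ^ k)⁻¹) ^ S.card * ∑ f : S → Lab k,
      e2 (∑ j : S, F4.tr (gam2 c 0 (f j) * D.a j) + ∑ i : S, ∑ j : S, Phi (f i) (f j) * D.s i j +
        ∑ j : S, (0 : ZMod 2) * D.g j) := by
  have h1 := kc_pow_mul2 (k := k) D.toDat c 0 S
  rw [zero_mul, F4.tr_zero, sg_zero, mul_one] at h1
  have h4 : ((4 : ℂ) ^ k) ≠ 0 := pow_ne_zero _ (by norm_num)
  have h2 : ((twD c D.toDat).kc S : ℂ) ^ k * ((4 : ℂ) ^ k) ^ S.card =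
      ∑ f : S → Lab k, e2 (∑ j : S, F4.tr (gam2 c 0 (f j) * D.a j) +
        ∑ i : S, ∑ j : S, Phi (f i) (f j) * D.s i j + ∑ j : S, (0 : ZMod 2) * D.g j) := by
    have h3 := congrArg (fun x : ℝ => (x : ℂ)) h1
    push_cast at h3
    rw [h3]
    refine sum_congr rfl fun f _ => ?_
    simp only [zero_mul, sum_const_zero, add_zero]
    rfl
  rw [← h2, inv_pow]
  field_simp

/-- **The density in the odd classes.** -/
theorem densG {D : DatE ι} (hD : D.OK) (G : Type) [AddCommGroup G] [Fintype G] :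
    DensG D.toDat G := by
  intro C h3 c g κ
  refine dens_of_MG (K := fun S => (twD c D.toDat).kc S) (fun k => ?_) _
    (fun S => kc_eq_one (twD c D.toDat) S) (fun S => kc_pow (twD c D.toDat) S) κ
  refine MG_gen C h3 hD.toOK.h3 _ k (fun c1 ε hε => mo2OK hD.toOK k c c1 ε hε)
    (fun hk h hn hz ε hε => ?_) g
  obtain ⟨X₀, hX⟩ := van hD k hk (gam2 c 0) (fun _ => 0)
    (fun U hU => by
      have hne : U.Nonempty := by
        rw [← card_pos, (mem_Us4.1 hU).2]; positivity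
      obtain ⟨l, hl⟩ := hne
      exact ⟨l, hl, rfl⟩) h hn hz ε hε
  refine ⟨X₀, fun X hXX => ?_⟩
  refine le_trans (le_of_eq ?_) (hX X hXX)
  rw [WS]
  congr 1
  refine sum_congr rfl fun S _ => ?_
  rw [twd_pow D c S]
  ring

/-! ### Even classes -/

theorem exists_delE {k : ℕ} (y : Fin k → F4) {U : Finset (Lab k)} (hU : U ∈ Us k) :
    ∃ l ∈ U, delE y l = 0 := by
  obtain ⟨h1, h2⟩ := mem_Us4.1 hU
  by_cases hy : ((0, y) : Lab k) ∈ U
  · exact ⟨_, hy, (del_iff hU y).2 hy _ hy⟩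
  · obtain ⟨-, -, l', hl', -, h0⟩ := K2 h1 h2 hy
    refine ⟨l', hl', ?_⟩
    rw [delE_eq, ← Lk_eq]
    exact h0

/-- **The density in the even classes.** -/
theorem densGE {D : DatE ι} (hD : D.OK) (G : Type) [AddCommGroup G] [Fintype G] :
    DensGE D G := by
  intro C h3 c g κ
  refine dens_of_MG (K := fun S => D.kcE c S) (fun k => ?_) _
    (fun S => kcE_eq_one D c S) (fun S => kcE_pow D c S) κ
  refine MG_gen C h3 hD.toOK.h3 _ k (fun c1 ε hε => moEOK hD k c c1 ε hε)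
    (fun hk h hn hz ε hε => ?_) g
  have h4 : (0 : ℝ) < 4 ^ k := by positivity
  choose X1 h1 using fun (x y : Fin k → F4) =>
    van hD k hk (gamE c 0 x y) (delE y) (fun U hU => exists_delE y hU) h hn hz (ε / 4 ^ k)
      (by positivity)
  refine ⟨∑ y, ∑ x, X1 x y, fun X hX => ?_⟩
  have hX1 : ∀ x y, X1 x y ≤ X := fun x y =>
    ((single_le_sum (f := fun x => X1 x y) (fun _ _ => Nat.zero_le _) (mem_univ x)).trans
      (single_le_sum (f := fun y => ∑ x, X1 x y) (fun _ _ => Nat.zero_le _)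
        (mem_univ y))).trans hX
  have e0 : ∀ S : Finset ι, (D.kcE c S : ℂ) ^ k =
      (∑ y : Fin k → F4, ∑ x : Fin k → F4, e2 (F4.tr (c * (x ⬝ᵥ y))) *
        ((((4 : ℂ) ^ k)⁻¹) ^ S.card * ∑ f : S → Lab k, e2 (D.eS (LSkE k c 0 x y) S f))) /
        4 ^ k := by
    intro S
    have h5 := kcE_pow_eq (k := k) D c 0 S
    rw [zero_mul, F4.tr_zero, sg_zero, mul_one] at h5
    have h6 := congrArg (fun x : ℝ => (x : ℂ)) h5
    push_cast at h6
    exact h6
  have e1 : ∑ S ∈ Sx ι X, (∏ q ∈ S, h q) * (D.kcE c S : ℂ) ^ k =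
      (∑ y : Fin k → F4, ∑ x : Fin k → F4, e2 (F4.tr (c * (x ⬝ᵥ y))) *
        WS D k (gamE c 0 x y) (delE y) h X) / 4 ^ k := by
    simp only [e0]
    have e3 : ∀ S : Finset ι, (∏ q ∈ S, h q) * ((∑ y : Fin k → F4, ∑ x : Fin k → F4,
        e2 (F4.tr (c * (x ⬝ᵥ y))) *
        ((((4 : ℂ) ^ k)⁻¹) ^ S.card * ∑ f : S → Lab k, e2 (D.eS (LSkE k c 0 x y) S f))) /
        4 ^ k) = (∑ y : Fin k → F4, ∑ x : Fin k → F4, e2 (F4.tr (c * (x ⬝ᵥ y))) *
        ((((4 : ℂ) ^ k)⁻¹) ^ S.card * (∏ q ∈ S, h q) *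
          ∑ f : S → Lab k, e2 (D.eS (LSkE k c 0 x y) S f))) / 4 ^ k := by
      intro S
      rw [← mul_div_assoc, mul_sum]
      congr 1
      refine sum_congr rfl fun y _ => ?_
      rw [mul_sum]
      refine sum_congr rfl fun x _ => ?_
      ring
    simp only [e3]
    rw [← sum_div, sum_comm]
    congr 1
    refine sum_congr rfl fun y _ => ?_
    rw [sum_comm]
    refine sum_congr rfl fun x _ => ?_
    rw [WS, ← mul_sum]
    rfl
  rw [e1, norm_div, norm_pow, Complex.norm_ofNat, div_le_iff₀ h4]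
  have hcard : Fintype.card (Fin k → F4) = 4 ^ k := by
    rw [Fintype.card_fun, F4.card_F4, Fintype.card_fin]
  calc ‖∑ y : Fin k → F4, ∑ x : Fin k → F4, e2 (F4.tr (c * (x ⬝ᵥ y))) *
        WS D k (gamE c 0 x y) (delE y) h X‖
      ≤ ∑ _y : Fin k → F4, ∑ _x : Fin k → F4, ε / 4 ^ k * X := by
        refine (norm_sum_le _ _).trans (sum_le_sum fun y _ => ?_)
        refine (norm_sum_le _ _).trans (sum_le_sum fun x _ => ?_)
        rw [norm_mul, norm_e2, one_mul]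
        exact h1 x y X (hX1 x y)
    _ = ε * X * 4 ^ k := by
        simp only [sum_const, card_univ, hcard, nsmul_eq_mul]
        push_cast
        field_simp

end

end Pool.Agent.Lib.MP_1a91b9_ntS.DG
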