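import Pool.Agent.Lib.MP_1a91b9_ntS.DG.GDef
import Pool.Agent.Lib.MP_1a91b9_ntH.D.DAlg

/-!
# MP_1a91b9_nt (twists over `Q(sqrt -3)`, classes modulo powers of two), part D: from the weighted
moments to the density in the classes
-/

set_option autoImplicit false
set_option linter.unusedSectionVars false

namespace Pool.Agent.Lib.MP_1a91b9_ntS.DG

open Finset Pool.Agent.Lib.MP_1a91b9_ntH Pool.Agent.Lib.MP_1a91b9_ntH.Da

noncomputable section

variable {ι : Type} [DecidableEq ι] [PS ι] {G : Type} [AddCommGroup G] {D : Dat ι}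

theorem mem_SG4 {C : ClG D G} {g : G} {X : ℕ} {S : Finset ι} :
    S ∈ SG C g X ↔ S ∈ Sx ι X ∧ ∑ q ∈ S, C.cl q = g := by
  classical
  rw [SG, mem_filter]

theorem ch_sum4 (ψ : AddChar G ℂ) (S : Finset ι) (f : ι → G) :
    ψ (∑ q ∈ S, f q) = ∏ q ∈ S, ψ (f q) := by
  classical
  induction S using Finset.induction_on with
  | empty => rw [sum_empty, prod_empty, AddChar.map_zero_eq_one]
  | insert a s ha ih => rw [sum_insert ha, prod_insert ha, AddChar.map_add_eq_mul, ih]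

theorem sum_SG4 [Fintype G] (C : ClG D G) (g : G) (X : ℕ) (F : Finset ι → ℂ) :
    ∑ S ∈ SG C g X, F S = (∑ ψ : AddChar G ℂ, ψ (-g) *
      ∑ S ∈ Sx ι X, (∏ q ∈ S, ψ (C.cl q)) * F S) / Fintype.card G := by
  classical
  have hG : (Fintype.card G : ℂ) ≠ 0 := Nat.cast_ne_zero.2 Fintype.card_ne_zero
  have h1 : ∀ (ψ : AddChar G ℂ) (S : Finset ι), ψ (-g) * ((∏ q ∈ S, ψ (C.cl q)) * F S) =
      ψ (∑ q ∈ S, C.cl q - g) * F S := by
    intro ψ S
    rw [sub_eq_add_neg, AddChar.map_add_eq_mul, ch_sum4]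
    ring
  have h2 : ∑ ψ : AddChar G ℂ, ψ (-g) * ∑ S ∈ Sx ι X, (∏ q ∈ S, ψ (C.cl q)) * F S =
      ∑ S ∈ Sx ι X, if ∑ q ∈ S, C.cl q = g then (Fintype.card G : ℂ) * F S else 0 := by
    simp only [mul_sum, h1]
    rw [sum_comm]
    refine sum_congr rfl fun S _ => ?_
    rw [← sum_mul, AddChar.sum_apply_eq_ite]
    by_cases h : ∑ q ∈ S, C.cl q = g
    · rw [if_pos (sub_eq_zero.2 h), if_pos h]
    · rw [if_neg fun h' => h (sub_eq_zero.1 h'), if_neg h, zero_mul]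
  rw [h2, ← sum_filter, SG, ← mul_sum, mul_div_cancel_left₀ _ hG]

/-- The mean value of `f (K S)` over the class `g` is `v`. -/
def MG (C : ClG D G) (g : G) (K : Finset ι → ℕ) (f : ℝ → ℝ) (v : ℝ) : Prop :=
  ∀ ε : ℝ, 0 < ε → ∃ X₀ : ℕ, ∀ X : ℕ, X₀ ≤ X →
    |∑ S ∈ SG C g X, f (K S) - v * (SG C g X).card| ≤ ε * X

/-- **From the weighted moments to the moments in the classes.** -/
theorem MG_of_ch [Fintype G] (C : ClG D G) (K : Finset ι → ℕ) (k : ℕ) (v : ℝ)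
    (h : ∀ (ψ : AddChar G ℂ) (ε : ℝ), 0 < ε → ∃ X₀ : ℕ, ∀ X : ℕ, X₀ ≤ X →
      ‖∑ S ∈ Sx ι X, (∏ q ∈ S, ψ (C.cl q)) * (K S : ℂ) ^ k -
        v * ∑ S ∈ Sx ι X, ∏ q ∈ S, ψ (C.cl q)‖ ≤ ε * X) (g : G) :
    MG C g K (fun x => x ^ k) v := by
  intro ε hε
  have hG : (0 : ℝ) < Fintype.card G := Nat.cast_pos.2 Fintype.card_pos
  choose X1 h1 using fun ψ : AddChar G ℂ => h ψ ε hε
  refine ⟨∑ ψ, X1 ψ, fun X hX => ?_⟩
  have hX1 : ∀ ψ, X1 ψ ≤ X := fun ψ =>
    (single_le_sum (fun _ _ => Nat.zero_le _) (mem_univ ψ)).trans hX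
  have e1 := sum_SG4 C g X fun S => (K S : ℂ) ^ k
  have e0 := sum_SG4 C g X fun _ => 1
  simp only [mul_one, sum_const, nsmul_eq_mul] at e0
  have e3 : ∑ S ∈ SG C g X, (K S : ℂ) ^ k - v * ((SG C g X).card : ℂ) =
      (∑ ψ : AddChar G ℂ, ψ (-g) * (∑ S ∈ Sx ι X, (∏ q ∈ S, ψ (C.cl q)) * (K S : ℂ) ^ k -
        v * ∑ S ∈ Sx ι X, ∏ q ∈ S, ψ (C.cl q))) / Fintype.card G := by
    rw [e1, e0, ← mul_div_assoc, ← sub_div, mul_sum, ← sum_sub_distrib]
    congr 1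
    refine sum_congr rfl fun ψ _ => ?_
    ring
  have h5 : ‖∑ S ∈ SG C g X, (K S : ℂ) ^ k - v * ((SG C g X).card : ℂ)‖ ≤ ε * X := by
    rw [e3, norm_div, Complex.norm_natCast, div_le_iff₀ hG]
    refine (norm_sum_le _ _).trans ?_
    have hcard : (Fintype.card (AddChar G ℂ) : ℝ) = Fintype.card G := by
      rw [AddChar.card_eq]
    calc _ ≤ ∑ _ψ : AddChar G ℂ, ε * X := by
          refine sum_le_sum fun ψ _ => ?_
          rw [norm_mul, AddChar.norm_apply, one_mul]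
          exact h1 ψ X (hX1 ψ)
      _ = ε * X * Fintype.card G := by
          rw [sum_const, card_univ, nsmul_eq_mul, hcard]
          ring
  have h6 : ((∑ S ∈ SG C g X, (K S : ℝ) ^ k - v * (SG C g X).card : ℝ) : ℂ) =
      ∑ S ∈ SG C g X, (K S : ℂ) ^ k - v * ((SG C g X).card : ℂ) := by
    push_cast
    ring
  rw [← h6, Complex.norm_real, Real.norm_eq_abs] at h5
  exact h5

section Alg

variable {C : ClG D G} {g : G} {K : Finset ι → ℕ}

theorem MG.add {f h : ℝ → ℝ} {v w : ℝ} (hf : MG C g K f v) (hh : MG C g K h w) :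
    MG C g K (fun x => f x + h x) (v + w) := by
  intro ε hε
  obtain ⟨X1, h1⟩ := hf (ε / 2) (by positivity)
  obtain ⟨X2, h2⟩ := hh (ε / 2) (by positivity)
  refine ⟨max X1 X2, fun X hX => ?_⟩
  have h3 := h1 X (le_trans (le_max_left _ _) hX)
  have h4 := h2 X (le_trans (le_max_right _ _) hX)
  rw [sum_add_distrib]
  calc |∑ S ∈ SG C g X, f (K S) + ∑ S ∈ SG C g X, h (K S) - (v + w) * (SG C g X).card|
      = |(∑ S ∈ SG C g X, f (K S) - v * (SG C g X).card) +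
        (∑ S ∈ SG C g X, h (K S) - w * (SG C g X).card)| := by congr 1; ring
    _ ≤ _ := abs_add_le _ _
    _ ≤ ε / 2 * X + ε / 2 * X := add_le_add h3 h4
    _ = ε * X := by ring

theorem MG.smul {f : ℝ → ℝ} {v : ℝ} (hf : MG C g K f v) (a : ℝ) :
    MG C g K (fun x => a * f x) (a * v) := by
  intro ε hε
  obtain ⟨X1, h1⟩ := hf (ε / (|a| + 1)) (by positivity)
  refine ⟨X1, fun X hX => ?_⟩
  have h3 := h1 X hX
  rw [← mul_sum, mul_assoc, ← mul_sub, abs_mul]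
  have ha : 0 < |a| + 1 := by positivity
  calc |a| * |∑ S ∈ SG C g X, f (K S) - v * (SG C g X).card|
      ≤ (|a| + 1) * (ε / (|a| + 1) * X) := by
        refine mul_le_mul (by linarith) h3 (abs_nonneg _) ha.le
    _ = ε * X := by field_simp

theorem MG.congr {f h : ℝ → ℝ} {v w : ℝ} (hf : MG C g K f v) (h1 : ∀ x, h x = f x)
    (h2 : w = v) : MG C g K h w := by
  rw [h2, show h = f from funext h1]
  exact hf

theorem MG_Fj (hm : ∀ k, MG C g K (fun x => x ^ k) (Nk k)) (j : ℕ) :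
    ∀ m : ℕ, MG C g K (fun x => x ^ m * Fj j x) (2 ^ (j ^ 2) * 4 ^ (j * m) * Nk m) := by
  induction j with
  | zero =>
    intro m
    refine (hm m).congr (fun x => ?_) ?_
    · simp [Fj]
    · simp
  | succ j ih =>
    intro m
    refine ((ih (m + 1)).add ((ih m).smul (-(4 ^ j)))).congr (fun x => ?_) ?_
    · rw [Fj, prod_range_succ, ← Fj]
      ring
    · rw [Nk_succ']
      have e1 : (4 : ℝ) ^ (j * (m + 1)) = 4 ^ (j * m) * 4 ^ j := by rw [← pow_add]; ring_nf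
      have e2 : (4 : ℝ) ^ ((j + 1) * m) = 4 ^ (j * m) * 4 ^ m := by rw [← pow_add]; ring_nf
      have e3 : (2 : ℝ) ^ ((j + 1) ^ 2) = 2 ^ (j ^ 2) * 4 ^ j * 2 := by
        have : (4 : ℝ) ^ j = 2 ^ (2 * j) := by rw [pow_mul]; norm_num
        rw [this, ← pow_add, ← pow_succ]
        ring_nf
      rw [e1, e2, e3]
      ring

theorem MG_pK (hm : ∀ k, MG C g K (fun x => x ^ k) (Nk k)) (n : ℕ) :
    MG C g K (pK n) (sK n) := by
  induction n with
  | zero =>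
    refine (hm 0).congr (fun x => ?_) ?_
    · simp [pK]
    · simp [sK, Nk]
  | succ n ih =>
    refine (ih.add ((MG_Fj hm (n + 1) 0).smul
      ((-1) ^ (n + 1) / ∏ i ∈ range (n + 1), (4 ^ (i + 1) - 1)))).congr (fun x => pK_succ n x) ?_
    rw [sK, sum_range_succ, ← sK]
    simp [Nk]
    ring

/-- **The density from the moments.** -/
theorem dens_of_MG (hm : ∀ k, MG C g K (fun x => x ^ k) (Nk k)) (P : Finset ι → Prop)
    [DecidablePred P] (hP : ∀ S, K S = 1 ↔ P S) (hK : ∀ S, ∃ r : ℕ, K S = 4 ^ r) (κ : ℝ) :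
    (κ < cinf → ∀ ε : ℝ, 0 < ε → ∃ X₀ : ℕ, ∀ X : ℕ, X₀ ≤ X →
      κ * ((SG C g X).card : ℝ) - ε * X ≤ (((SG C g X).filter P).card : ℝ)) ∧
    (cinf < κ → ∀ ε : ℝ, 0 < ε → ∃ X₀ : ℕ, ∀ X : ℕ, X₀ ≤ X →
      (((SG C g X).filter P).card : ℝ) ≤ κ * ((SG C g X).card : ℝ) + ε * X) := by
  have hone : ∀ S, P S → ∀ n, pK n (K S) = 1 := by
    intro S hS n
    rw [(hP S).2 hS]
    push_cast
    exact pK_one n
  have hpow : ∀ S, ¬ P S → ∃ r : ℕ, r ≠ 0 ∧ (K S : ℝ) = 4 ^ r := by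
    intro S hS
    obtain ⟨r, hr⟩ := hK S
    refine ⟨r, fun h0 => ?_, ?_⟩
    · rw [h0, pow_zero] at hr
      exact hS ((hP S).1 hr)
    · rw [hr]
      push_cast
      rfl
  constructor
  · intro hκ ε hε
    obtain ⟨n, hn, h1⟩ := exists_odd hκ
    obtain ⟨X0, h0⟩ := MG_pK hm n ε hε
    refine ⟨X0, fun X hX => ?_⟩
    have h2 := h0 X hX
    have h3 : ∑ S ∈ SG C g X, pK n (K S) ≤ (((SG C g X).filter P).card : ℝ) := by
      rw [card_eq_sum_ones, sum_filter]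
      push_cast
      refine sum_le_sum fun S _ => ?_
      split_ifs with hd
      · rw [hone S hd n]
      · obtain ⟨r, hr0, hr⟩ := hpow S hd
        rw [hr]
        exact (pK_pow n r hr0).1 hn
    have h4 := (abs_le.1 h2).1
    have h5 := mul_le_mul_of_nonneg_right h1.le (Nat.cast_nonneg (α := ℝ) (SG C g X).card)
    linarith
  · intro hκ ε hε
    obtain ⟨n, hn, h1⟩ := exists_even hκ
    obtain ⟨X0, h0⟩ := MG_pK hm n ε hε
    refine ⟨X0, fun X hX => ?_⟩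
    have h2 := h0 X hX
    have h3 : (((SG C g X).filter P).card : ℝ) ≤ ∑ S ∈ SG C g X, pK n (K S) := by
      rw [card_eq_sum_ones, sum_filter]
      push_cast
      refine sum_le_sum fun S _ => ?_
      split_ifs with hd
      · rw [hone S hd n]
      · obtain ⟨r, hr0, hr⟩ := hpow S hd
        rw [hr]
        exact (pK_pow n r hr0).2 hn
    have h4 := (abs_le.1 h2).2
    have h5 := mul_le_mul_of_nonneg_right h1.le (Nat.cast_nonneg (α := ℝ) (SG C g X).card)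
    linarith

end Alg

end

end Pool.Agent.Lib.MP_1a91b9_ntS.DG
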